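import Mathlib
import Pool.Agent.T9h97.RB.RC

set_option autoImplicit false

namespace Pool.Agent.Results.MP_85f9db_co.LowPairsOfCounterexamples

open Pool.Agent.T9h97.RB.RC

theorem result :
    ∃ C : ℕ, ∀ (V : Type) [Fintype V] (G : SimpleGraph V) [DecidableRel G.Adj], G ≠ ⊤ →
      Fintype.card V ≤ 2 * G.minDegree →
      (Fintype.card V < 2 * G.minDegree ∨
        ∀ u v : V, u ≠ v → ¬ G.Adj u v → 3 ≤ (G.commonNeighbors u v).ncard) →
      rc G ≠ 2 →
      (∀ f : V → Bool, ∃ u v : V, u ≠ v ∧ ¬ G.Adj u v ∧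
          (G.commonNeighbors u v).ncard < C ∧ f u = f v) ∧
        (∀ (x : V) (s : ℕ), 1 ≤ s →
          {y : V | y ≠ x ∧ ¬ G.Adj x y ∧ (G.commonNeighbors x y).ncard ≤ s}.ncard < C * s) ∧
        Fintype.card V ≤ C * {p : V × V | p.1 ≠ p.2 ∧ ¬ G.Adj p.1 p.2 ∧
          (G.commonNeighbors p.1 p.2).ncard < C}.ncard := by
  classical
  refine ⟨2 ^ 110, ?_⟩
  intro V _ G _ hG hmin h3 hrc
  have h3' : ∀ u v : V, u ≠ v → ¬ G.Adj u v → 3 ≤ (G.commonNeighbors u v).ncard := by
    rcases h3 with h | h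
    · intro u v huv hadj
      rw [t_eq]
      exact codeg_of_excess G 1 h u v huv hadj
    · exact h
  have key := fun hcase => hrc (structure3 G hG hmin h3' hcase)
  refine ⟨?_, ?_, ?_⟩
  · intro f
    by_contra hcon
    apply key
    left
    refine ⟨f, fun u v huv hadj ht hf => hcon ⟨u, v, huv, hadj, ht, hf⟩⟩
  · intro x s hs
    by_contra hcon
    apply key
    right; left
    exact ⟨x, s, hs, not_lt.mp hcon⟩
  · by_contra hcon
    apply key
    right; right
    exact not_le.mp hcon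

end Pool.Agent.Results.MP_85f9db_co.LowPairsOfCounterexamples
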