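import Mathlib
import Pool.Agent.T9h97.RB.RC
import Pool.Agent.T9h97.RB.Main18

set_option autoImplicit false

namespace Pool.Agent.Results.MP_85f9db_co.SmallExcess

open Pool.Agent.T9h97.RB.RC

theorem result (V : Type) [Fintype V] (G : SimpleGraph V) [DecidableRel G.Adj] (hG : G ≠ ⊤)
    (hmin : (Fintype.card V : ℝ) / 2 ≤ G.minDegree)
    (h : (Fintype.card V : ℝ) / 2 + 7 ≤ G.minDegree ∨
      ∀ u v : V, u ≠ v → ¬ G.Adj u v → 18 ≤ (G.commonNeighbors u v).ncard) :
    rc G = 2 := by
  classical
  haveI := nonempty_of_ne_top G hG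
  apply rc_of_col G hG
  rcases h with h | h
  · have hminN : Fintype.card V + 14 ≤ 2 * G.minDegree := by
      have h1 : (Fintype.card V : ℝ) + 14 ≤ 2 * G.minDegree := by linarith
      exact_mod_cast h1
    apply Pool.Agent.T9h97.RB.main16 (G := G)
    · intro u
      rw [nb_card]
      have := G.minDegree_le_degree u
      omega
    · intro u v huv hadj
      exact codeg_of_excess G 14 hminN u v huv hadj
  · have hminN : Fintype.card V ≤ 2 * G.minDegree := by
      have h1 : (Fintype.card V : ℝ) ≤ 2 * G.minDegree := by linarith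
      exact_mod_cast h1
    apply Pool.Agent.T9h97.RB.main18 (G := G) (hdeg_of_min G hminN)
    intro u v huv hadj
    rw [← t_eq]
    exact h u v huv hadj

end Pool.Agent.Results.MP_85f9db_co.SmallExcess
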